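import Mathlib

/-! MP_be0fb5, bodies with at most five facets: perturbation of the normals to general position. -/

set_option autoImplicit false

namespace Pool.Agent.Helper21.FIVE

open Matrix Polynomial

/-- the perturbing vectors -/
noncomputable def pv (i : Fin 5) : Fin 3 → ℝ := ![1, (i : ℕ), ((i : ℕ) : ℝ) ^ 2]

theorem pv_det (i j k : Fin 5) (hij : i ≠ j) (hjk : j ≠ k) (hik : i ≠ k) :
    (Matrix.of ![pv i, pv j, pv k]).det ≠ 0 := by
  have h : (Matrix.of ![pv i, pv j, pv k]).det =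
      (((j : ℕ) : ℝ) - (i : ℕ)) * (((k : ℕ) : ℝ) - (i : ℕ)) * (((k : ℕ) : ℝ) - (j : ℕ)) := by
    rw [Matrix.det_fin_three]
    simp [pv]
    ring
  have h1 : ∀ a b : Fin 5, a ≠ b → ((b : ℕ) : ℝ) - (a : ℕ) ≠ 0 := by
    intro a b hab h0
    have h2 : ((b : ℕ) : ℝ) = (a : ℕ) := by linarith
    exact hab (Fin.ext (by exact_mod_cast h2.symm))
  rw [h]
  exact mul_ne_zero (mul_ne_zero (h1 _ _ hij) (h1 _ _ hik)) (h1 _ _ hjk)

theorem exists_generic (n : Fin 5 → Fin 3 → ℝ) (η : ℝ) (h : 0 < η) :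
    ∃ n' : Fin 5 → Fin 3 → ℝ, (∀ i a, |n' i a - n i a| ≤ η) ∧
      (∀ i j k, i ≠ j → j ≠ k → i ≠ k → (Matrix.of ![n' i, n' j, n' k]).det ≠ 0) := by
  classical
  set p : Fin 5 → Fin 5 → Fin 5 → ℝ[X] := fun i j k =>
    det ((X : ℝ[X]) • (Matrix.of ![pv i, pv j, pv k]).map C + (Matrix.of ![n i, n j, n k]).map C) with hp
  have hp0 : ∀ i j k, i ≠ j → j ≠ k → i ≠ k → p i j k ≠ 0 := by
    intro i j k hij hjk hik h0
    have h1 := coeff_det_X_add_C_card (Matrix.of ![pv i, pv j, pv k]) (Matrix.of ![n i, n j, n k])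
    have h2 : (det ((X : ℝ[X]) • (Matrix.of ![pv i, pv j, pv k]).map C +
      (Matrix.of ![n i, n j, n k]).map C)) = 0 := h0
    rw [h2] at h1
    exact pv_det i j k hij hjk hik (by rw [← h1]; simp)
  have hev : ∀ (i j k : Fin 5) (s : ℝ), (p i j k).eval s =
      (s • Matrix.of ![pv i, pv j, pv k] + Matrix.of ![n i, n j, n k]).det := by
    intro i j k s
    have h1 := RingHom.map_det (Polynomial.evalRingHom s)
      ((X : ℝ[X]) • (Matrix.of ![pv i, pv j, pv k]).map C + (Matrix.of ![n i, n j, n k]).map C)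
    rw [coe_evalRingHom] at h1
    show eval s (det _) = _
    rw [h1]
    congr 1
    ext a b
    fin_cases a <;> simp <;> ring
  set S : Finset ℝ := Finset.univ.biUnion fun t : Fin 5 × Fin 5 × Fin 5 => (p t.1 t.2.1 t.2.2).roots.toFinset
    with hS
  obtain ⟨s, hs, hsS⟩ := (Set.Ioo_infinite (show (0 : ℝ) < η / 16 by positivity)).exists_notMem_finset S
  refine ⟨fun i a => n i a + s * pv i a, ?_, ?_⟩
  · intro i a
    have h1 : n i a + s * pv i a - n i a = s * pv i a := by ring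
    rw [h1, abs_mul, abs_of_pos hs.1]
    have h2 : |pv i a| ≤ 16 := by
      have h3 : ((i : ℕ) : ℝ) ≤ 4 := by
        have := i.isLt
        have h4 : (i : ℕ) ≤ 4 := by omega
        exact_mod_cast h4
      have h5 : (0 : ℝ) ≤ (i : ℕ) := Nat.cast_nonneg _
      fin_cases a
      · show |(1 : ℝ)| ≤ 16
        norm_num
      · show |((i : ℕ) : ℝ)| ≤ 16
        rw [abs_of_nonneg h5]
        linarith
      · show |((i : ℕ) : ℝ) ^ 2| ≤ 16
        rw [abs_of_nonneg (by positivity)]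
        nlinarith
    calc s * |pv i a| ≤ (η / 16) * 16 :=
          mul_le_mul hs.2.le h2 (abs_nonneg _) (by positivity)
      _ = η := by ring
  · intro i j k hij hjk hik h0
    apply hsS
    rw [hS, Finset.mem_biUnion]
    refine ⟨(i, j, k), Finset.mem_univ _, ?_⟩
    rw [Multiset.mem_toFinset, mem_roots (hp0 i j k hij hjk hik), IsRoot, hev]
    rw [← h0]
    congr 1
    ext a b
    fin_cases a <;> simp <;> ring

end Pool.Agent.Helper21.FIVE
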